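import Mathlib
import Pool.Agent.X85.HFa
import Pool.Agent.X85.HFb

/-!
# Intersections of return-time sets along Hardy-field functions need not be thick

For every irrational `α` the functions `t^(3/2)` and `α t^(3/2) + t` satisfy the hypothesis, but for a
suitable set `E` of positive upper density the intersection of their return-time sets is not thick.
-/

set_option autoImplicit false
open Filter Topology

namespace Pool.Agent.Results.MP_121ecb_an.NotThick

open Pool.Agent.X85.HF

/-- There is a Hardy field which contains, for every irrational `α`, the functions `t^(3/2)` and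
`α t^(3/2) + t`; these functions satisfy the hypothesis on `S(f_1, f_2)`, and there is a set `E` of
positive upper density such that `R_{f_1} ∩ R_{f_2}` is not thick. -/
theorem result : ∃ H : Subring (Germ (atTop : Filter ℝ) ℝ), IsHardyField H ∧
    ∀ α : ℝ, Irrational α →
      (∀ i, ((ff α i : ℝ → ℝ) : Germ (atTop : Filter ℝ) ℝ) ∈ H) ∧ LimitHypothesis (ff α) ∧
      ∃ E : Set ℕ, (∀ e ∈ E, 1 ≤ e) ∧ 0 < upperDensity E ∧
        ¬ Thick (⋂ i, returnSet (ff α i) E) := by
  refine ⟨HH, hardy, fun α hα => ⟨ff_mem α, limit_hyp α hα, ?_⟩⟩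
  obtain ⟨q, hq⟩ := exists_nat_gt (8 * (1 + |α|))
  have habs := abs_nonneg α
  have hq0 : (0 : ℝ) < q := by linarith
  have hq1 : 0 < q := by exact_mod_cast hq0
  refine ⟨EE α (1 / ((16 : ℕ) : ℝ)) q, fun e he => he.1, density_pos α 16 q (by norm_num) hq1,
    not_thick α _ q hq1 ?_ ?_⟩
  · have : (1 + |α|) / q < 1 / 8 := by
      rw [div_lt_div_iff₀ hq0 (by norm_num)]
      linarith
    push_cast
    linarith
  · rw [div_lt_div_iff₀ hq0 (by norm_num)]
    linarith

end Pool.Agent.Results.MP_121ecb_an.NotThick
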